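import Pool.Agent.H8.DPL.Defs
import Pool.Agent.H8.KS6.BoxC

/-!
# The double plateau: one family

`N + 1` windows `w 0 < w 1 < ... < w N`, `M` rows. One constant frame `(a, s, t)`, a function of the
line and of the largest window `w 0`, and visible. The context of the window `w j` and of the row
`k` is the natural box with the velocity levels `q + k X`, `q + k X + V`, `q + k X + V + H`. At the
exact points the velocities are `d_u = al d_e + nu` and `d_N - s d_u - t d_e = kk d_e + bb`; the own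
slopes in the units of the boxes are `2 ^ V (al - a)` and `2 ^ (V + H) kk`.
-/

set_option autoImplicit false

namespace Pool.DPL

open Finset Real
open Pool.Agent.H49.Ent Pool.Agent.H32.Dense Pool.STK Pool.KA Pool.KSAT Pool.K2S

variable {J : ℕ}

/-- The velocity levels of the context. -/
def cvl (q V H : ℕ) (i : Fin 3) : ℕ := ![q, q + V, q + V + H] i

/-- The frame. -/
def frm (σ : Fin 3 → Fin 3) {Ω : Type} (a s t : Ω → ℝ) (ω : Ω) : Fin 3 → Fin 3 → ℝ :=
  tfr σ (a ω) (s ω) (t ω)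

/-- A number rounded to `n` binary digits. -/
noncomputable def rnd (n : ℕ) (x : ℝ) : ℝ := ⌊(2 : ℝ) ^ n * x⌋ / 2 ^ n

section objects

variable (F : Fam 3 J) (σ : Fin 3 → Fin 3) (w q V H X n : ℕ) (a s t : F.Ω → ℝ)
  (al kk : (Fin 3 → ℤ) × (ℕ × F.ζ) → ℝ)

/-- The context. -/
noncomputable def ctx := F.blb w (cvl q V H) (frm σ a s t)

/-- The own slopes, `n` digits. -/
noncomputable def own (ω : F.Ω) : Fin 2 → ℝ :=
  ![2 ^ V * (rnd (V + n) (al (Fam.pt F ω)) - a ω), 2 ^ (V + H) * rnd (V + H + n) (kk (Fam.pt F ω))]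

/-- The own slopes as integers, `n` digits in the units of the box. -/
noncomputable def Gn (ω : F.Ω) : ℤ × ℤ :=
  (⌊(2 : ℝ) ^ (V + n) * al (Fam.pt F ω)⌋, ⌊(2 : ℝ) ^ (V + H + n) * kk (Fam.pt F ω)⌋)

/-- The visible cell of the position at the time: a function of the context and of the time. -/
noncomputable def vcl (ω : F.Ω) (i : Fin 3) : ℤ := ⌊F.mkn w (cvl q V H) (frm σ a s t) ω i⌋

/-- The position at the time relative to the visible cell, in units of the box. -/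
noncomputable def ypos (ω : F.Ω) (i : Fin 3) : ℝ :=
  F.mx w (cvl q V H) (frm σ a s t) ω i + Int.fract (F.mkn w (cvl q V H) (frm σ a s t) ω i)

/-- The own velocity, to the levels of the context: a function of the context and of the own
slopes. -/
noncomputable def ovl (ω : F.Ω) : Fin 2 → ℤ :=
  ![⌊(F.mvl (cvl q V H) (frm σ a s t) ω 1 : ℝ) -
      own F V H n a al kk ω 0 * F.mvl (cvl q V H) (frm σ a s t) ω 0⌋,
    ⌊(F.mvl (cvl q V H) (frm σ a s t) ω 2 : ℝ) -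
      own F V H n a al kk ω 1 * F.mvl (cvl q V H) (frm σ a s t) ω 0⌋]

/-- The visible part of the context at the time. -/
noncomputable def visc (ω : F.Ω) :=
  (((F.T1 w ω, F.Z ω), (a ω, s ω, t ω)), ((vcl F σ w q V H a s t ω,
    ovl F σ q V H n a s t al kk ω), Gn F V H n al kk ω))

/-- The digits of the velocity in the context. -/
noncomputable def vdg (ω : F.Ω) : ℤ × (Fin 2 → ℤ) :=
  vbl X (fun ω => F.md (cvl q V H) (frm σ a s t) ω 0)
    (fun ω i => F.md (cvl q V H) (frm σ a s t) ω i.succ) ω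

/-- The block of the position. -/
noncomputable def pbl (ω : F.Ω) : ℤ × (Fin 2 → ℤ) :=
  Pool.PLV.blk X (fun ω => ypos F σ w q V H a s t ω 0)
    (fun ω i => ypos F σ w q V H a s t ω i.succ) ω

end objects

/-- The data of one family. -/
structure DIn (F : Fam 3 J) (A : F.Ω → Prop) (σ : Fin 3 → Fin 3) (N M X : ℕ) (w : ℕ → ℕ)
    (q V H : ℕ) (a s t : F.Ω → ℝ) (al nu kk bb : (Fin 3 → ℤ) × (ℕ × F.ζ) → ℝ)
    (B c ca p₀ x₀ lm κ ϖ ε : ℝ) (nB : ℕ) : Prop where
  bij : Function.Bijective σ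
  law : IsLaw (Pool.Agent.H49.Ent.cond F.p A True)
  /-- the windows -/
  step : ∀ j < N, w j + X ≤ w (j + 1)
  top : w N + q + V + H + (M + 2) * X ≤ J
  /-- there are many windows -/
  many : (q : ℝ) + M * X ≤ lm * X * N
  /-- the time is full given the line -/
  time : (J : ℝ) * Real.log 2 - lm * X ≤
    CH (Pool.Agent.H49.Ent.cond F.p A True) F.T (fun ω => (F.l ω, F.Z ω))
  /-- the frame is a function of the line and of the largest window, and visible -/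
  det : Det (Pool.Agent.H49.Ent.cond F.p A True) (slam F (w 0)) (fun ω => (a ω, s ω, t ω))
  vdt : Det (Pool.Agent.H49.Ent.cond F.p A True) (Fam.pt F) (fun ω => (a ω, s ω, t ω))
  bd : ∀ ω, A ω → |a ω| ≤ B ∧ |s ω| ≤ B ∧ |t ω| ≤ B
  /-- the velocities at the exact points -/
  on1 : ∀ ω, A ω → |F.d ω (σ 1) - al (Fam.pt F ω) * F.d ω (σ 0) - nu (Fam.pt F ω)| ≤
    B / 2 ^ (q + V + (M + 1) * X)
  on2 : ∀ ω, A ω → |F.d ω (σ 2) - s ω * F.d ω (σ 1) - t ω * F.d ω (σ 0) - bb (Fam.pt F ω) -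
    kk (Fam.pt F ω) * F.d ω (σ 0)| ≤ B / 2 ^ (q + V + H + (M + 1) * X)
  an1 : ∀ ω, A ω → |al (Fam.pt F ω) - a ω| ≤ B / 2 ^ V
  an2 : ∀ ω, A ω → |kk (Fam.pt F ω)| ≤ B / 2 ^ (V + H)
  /-- the block of the position is not full -/
  dfc : ∀ j < N, ∀ k < M, ∀ E : F.Ω → Prop, Sub E A → ϖ * Pe F.p A ≤ Pe F.p E →
    CH (Pool.Agent.H49.Ent.cond F.p E True)
      (F.sbx σ (w j + q + k * X + X) (w j + q + V + k * X + X) (w j + q + V + H + k * X + X) a s t)
      (fun ω => (F.sbx σ (w j + q + k * X) (w j + q + V + k * X) (w j + q + V + H + k * X) a s t ω,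
        F.W ω)) ≤ (3 - c) * X * Real.log 2
  /-- the velocity is active given the exact point -/
  act : ∀ k < M, ∀ n X' : ℕ, κ * X ≤ X' → n + X' ≤ X → ∀ E : F.Ω → Prop, Sub E A →
    ϖ * Pe F.p A ≤ Pe F.p E → ca * X' * Real.log 2 ≤
      CH (Pool.Agent.H49.Ent.cond F.p E True)
        (fun ω => F.D (q + k * X + n + X') ω (σ 0))
        (fun ω => (F.D (q + k * X + n) ω (σ 0), Fam.pt F ω))
  /-- the own slopes turn on the line -/
  h6a : ∀ j < N, Pool.OCV.H6aR (Pool.Agent.H49.Ent.cond F.p A True) (slam F (w j))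
    (own F V H X a al kk) X x₀ p₀ ε
  /-- the own slopes of the lines through a point are not in a plane; `pt` is a function of the
  exact point up to a bounded ambiguity -/
  h6b : ∀ j < N, ∀ (ξ : Type) (pt : F.Ω → ξ) (amb : F.Ω → Fin nB),
    Det (Pool.Agent.H49.Ent.cond F.p A True) (fun ω => (Fam.pt F ω, amb ω)) pt →
    Det (Pool.Agent.H49.Ent.cond F.p A True) pt (own F V H X a al kk) →
    Pool.OCV.H6bR (Pool.Agent.H49.Ent.cond F.p A True) (slam F (w j)) pt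
      (own F V H X a al kk) X x₀ p₀ ε

/-- **The double plateau, one family.** -/
def DplOneStmt : Prop :=
  ∀ c ca B p₀ : ℝ, 0 < c → 0 < ca → 1 ≤ B → 0 < p₀ →
    ∃ (x₀ lm κ ϖ ε : ℝ) (X₀ M nB : ℕ), 0 < x₀ ∧ 0 < lm ∧ 0 < κ ∧ κ ≤ 1 ∧ 0 < ϖ ∧ ϖ ≤ 1 ∧ 0 < ε ∧
      0 < M ∧ ∀ (J : ℕ) (F : Fam 3 J) (A : F.Ω → Prop) (σ : Fin 3 → Fin 3) (N X : ℕ) (w : ℕ → ℕ)
      (q V H : ℕ) (a s t : F.Ω → ℝ) (al nu kk bb : (Fin 3 → ℤ) × (ℕ × F.ζ) → ℝ), X₀ ≤ X → 0 < N →
      DIn F A σ N M X w q V H a s t al nu kk bb B c ca p₀ x₀ lm κ ϖ ε nB → False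

/-! ### The telescopes -/

section tel

variable (F : Fam 3 J) (A : F.Ω → Prop) (σ : Fin 3 → Fin 3) (w : ℕ → ℕ) (q V H X n : ℕ)
  (a s t : F.Ω → ℝ) (al kk : (Fin 3 → ℤ) × (ℕ × F.ζ) → ℝ)

/-- The information of the block of the position on the velocity and the own frame, at the
window `j` and the velocity level `q`. -/
noncomputable def cost1 (j : ℕ) : ℝ :=
  Pool.KVA.MI (Pool.Agent.H49.Ent.cond F.p A True) (pbl F σ (w j) q V H X a s t)
    (fun ω => (vdg F σ q V H X a s t ω, Gn F V H n al kk ω))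
    (fun ω => (ctx F σ (w j) q V H a s t ω, F.T ω))

/-- The information of the block of the position on the context, given its visible part. -/
noncomputable def cost2 (j : ℕ) : ℝ :=
  Pool.KVA.MI (Pool.Agent.H49.Ent.cond F.p A True) (pbl F σ (w j) q V H X a s t)
    (ctx F σ (w j) q V H a s t) (fun ω => (visc F σ (w j) q V H n a s t al kk ω, F.T ω))

/-- The information of the block of the position on a reference, in the window `g`. -/
noncomputable def cost3 (g q' : ℕ) : ℝ :=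
  Pool.KVA.MI (dbl (Pool.Agent.H49.Ent.cond F.p A True) (slam F g))
    (fun x => pbl F σ g q' V H X a s t x.1) (fun x => (F.T x.2, Gn F V H X al kk x.2))
    (fun x => ((vdg F σ q' V H X a s t x.1, Gn F V H n al kk x.1),
      (ctx F σ g q' V H a s t x.1, F.T x.1)))

end tel

/-- **(TEL1)** The telescope in the window, at a fixed velocity level: the velocity and the own
frame are one variable. `C` depends on `B` only. -/
def Tel1Stmt : Prop :=
  ∀ B : ℝ, 1 ≤ B → ∃ C : ℝ, 0 ≤ C ∧ ∀ (J : ℕ) (F : Fam 3 J) (A : F.Ω → Prop)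
    (σ : Fin 3 → Fin 3) (N X : ℕ) (w : ℕ → ℕ) (q V H n : ℕ) (a s t : F.Ω → ℝ)
    (al kk : (Fin 3 → ℤ) × (ℕ × F.ζ) → ℝ), IsLaw (Pool.Agent.H49.Ent.cond F.p A True) →
    (∀ j < N, w j + X ≤ w (j + 1)) → w N + q + V + H + X ≤ J →
    Det (Pool.Agent.H49.Ent.cond F.p A True) (slam F (w 0)) (fun ω => (a ω, s ω, t ω)) →
    (∀ ω, A ω → |al (Fam.pt F ω) - a ω| ≤ B / 2 ^ V) →
    (∀ ω, A ω → |kk (Fam.pt F ω)| ≤ B / 2 ^ (V + H)) →
    ∑ j ∈ range N, cost1 F A σ w q V H X n a s t al kk j ≤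
      (3 * X + 2 * n) * Real.log 2 + C * (N + 1)

/-- **(TEL2)** The telescope in the window, at a fixed velocity level, for the context given its
visible part. -/
def Tel2Stmt : Prop :=
  ∀ B : ℝ, 1 ≤ B → ∃ C : ℝ, 0 ≤ C ∧ ∀ (J : ℕ) (F : Fam 3 J) (A : F.Ω → Prop)
    (σ : Fin 3 → Fin 3) (N X : ℕ) (w : ℕ → ℕ) (q V H n : ℕ) (a s t : F.Ω → ℝ)
    (al kk : (Fin 3 → ℤ) × (ℕ × F.ζ) → ℝ), IsLaw (Pool.Agent.H49.Ent.cond F.p A True) →
    (∀ j < N, w j + X ≤ w (j + 1)) → w N + q + V + H + X ≤ J → q ≤ n →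
    Det (Pool.Agent.H49.Ent.cond F.p A True) (slam F (w 0)) (fun ω => (a ω, s ω, t ω)) →
    (∀ ω, A ω → |al (Fam.pt F ω) - a ω| ≤ B / 2 ^ V) →
    (∀ ω, A ω → |kk (Fam.pt F ω)| ≤ B / 2 ^ (V + H)) →
    ∑ j ∈ range N, cost2 F A σ w q V H X n a s t al kk j ≤ q * Real.log 2 + C * (N + 1)

/-- **(TEL3)** The telescope in the velocity level, in a fixed window. -/
def Tel3Stmt : Prop :=
  ∀ B : ℝ, 1 ≤ B → ∃ C : ℝ, 0 ≤ C ∧ ∀ (J : ℕ) (F : Fam 3 J) (A : F.Ω → Prop)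
    (σ : Fin 3 → Fin 3) (M X : ℕ) (g q V H n : ℕ) (a s t : F.Ω → ℝ)
    (al kk : (Fin 3 → ℤ) × (ℕ × F.ζ) → ℝ) (e : ℝ), 0 ≤ e →
    IsLaw (Pool.Agent.H49.Ent.cond F.p A True) → g + q + V + H + (M + 1) * X ≤ J →
    (J : ℝ) * Real.log 2 - e ≤
      CH (Pool.Agent.H49.Ent.cond F.p A True) F.T (fun ω => (F.l ω, F.Z ω)) →
    Det (Pool.Agent.H49.Ent.cond F.p A True) (slam F g) (fun ω => (a ω, s ω, t ω)) →
    (∀ ω, A ω → |al (Fam.pt F ω) - a ω| ≤ B / 2 ^ V) →
    (∀ ω, A ω → |kk (Fam.pt F ω)| ≤ B / 2 ^ (V + H)) →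
    ∑ k ∈ range M, cost3 F A σ V H X n a s t al kk g (q + k * X) ≤
      M * e + 2 * X * Real.log 2 + C * (M + 1)

end Pool.DPL
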