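import Pool.Agent.H46.S6.Plv
import Pool.Agent.H45.OCV.Real

/-!
# The double plateau: pure theorem on the base space

`sl` is the line with its window (all data of the line are functions of `sl`), `b` the context, `T`
the time, `G` the own frame at the time (to all digits which are needed), `vis` the visible part of
the context at the time (a function of `b`, `T`, `G`). The block `(y, z)` is the position at the
time, three coordinates. `S` is the own slope, `R` are the data of the sample when it is used as a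
reference for the other samples of its line, `Y` is the exact point.
-/

set_option autoImplicit false

namespace Pool.DPL

open Finset Real
open Pool.Agent.H49.Ent Pool.Agent.H32.Dense Pool.STK Pool.KA Pool.K2S
open Pool.PLV

/-- The data of the theorem. -/
structure DPData {Ω β γ ν Λ Θ ρ υ : Type} [Fintype Ω] (c : ℕ) (K : ℝ) (p : Ω → ℝ) (b : Ω → β)
    (vis : Ω → ν) (G : Ω → γ) (sl : Ω → Λ) (T : Ω → Θ) (R : Ω → ρ) (Y : Ω → υ) (y0 om : Ω → ℝ)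
    (z0 be : Ω → Fin c → ℝ) (th : Ω → ℝ) (S : Ω → Fin c → ℝ) (y : Ω → ℝ) (z : Ω → Fin c → ℝ)
    (X : ℕ) : Prop where
  law : IsLaw p
  db : Det p sl b
  dy0 : Det p sl y0
  dom : Det p sl om
  dz0 : Det p sl z0
  dbe : Det p sl be
  dth : Det p (fun ω => (b ω, T ω)) th
  dth' : Det p (fun ω => (b ω, R ω)) th
  dS : Det p (fun ω => (b ω, R ω)) S
  dRY : Det p (fun ω => (b ω, Y ω)) R
  dvis : Det p (fun ω => (b ω, (T ω, G ω))) vis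
  dSv : Det p (fun ω => (vis ω, T ω)) S
  hom : ∀ ω, 0 < p ω → 0 ≤ om ω ∧ om ω < 1
  hth : ∀ ω, 0 < p ω → 0 ≤ th ω ∧ th ω < 1
  hS : ∀ ω, 0 < p ω → ∀ i, |S ω i| ≤ K
  hyb : ∀ ω, 0 < p ω → |y ω| ≤ K
  hzb : ∀ ω, 0 < p ω → ∀ i, |z ω i| ≤ K
  hy : ∃ k : Ω → ℝ, Det p (fun ω => (b ω, T ω)) k ∧
    ∀ ω, 0 < p ω → y ω = y0 ω + th ω * om ω + k ω
  hz : ∃ k : Ω → Fin c → ℝ, Det p (fun ω => (b ω, T ω)) k ∧
    ∀ ω, 0 < p ω → ∀ i, z ω i = z0 ω i + th ω * be ω i + k ω i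
  hY : ∃ (u : Ω → ℝ) (v W : Ω → Fin c → ℝ),
    Det p (fun ω => (Y ω, b ω)) (fun ω => (u ω, (v ω, W ω))) ∧
    ∀ ω, 0 < p ω → |y0 ω + th ω * om ω - u ω| * 2 ^ X ≤ K ∧
      (∀ i, |z0 ω i + th ω * be ω i - v ω i| * 2 ^ X ≤ K) ∧
      ∀ i, |be ω i - S ω i * om ω - W ω i| * 2 ^ X ≤ K

/-- The block of the velocity. -/
noncomputable def vbl {Ω : Type} {c : ℕ} (X : ℕ) (om : Ω → ℝ) (be : Ω → Fin c → ℝ) (ω : Ω) :
    ℤ × (Fin c → ℤ) := (Uni.dg X om ω, dgv X be ω)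

/-- The hypotheses of the theorem, without (H5) and (H6). -/
structure DPHyp {Ω β γ ν Λ Θ ρ υ : Type} [Fintype Ω] (c : ℕ) (p : Ω → ℝ) (b : Ω → β)
    (vis : Ω → ν) (G : Ω → γ) (sl : Ω → Λ) (T : Ω → Θ) (R : Ω → ρ) (Y : Ω → υ) (om : Ω → ℝ)
    (be : Ω → Fin c → ℝ) (th : Ω → ℝ) (y : Ω → ℝ) (z : Ω → Fin c → ℝ)
    (X : ℕ) (η ϖ ι ca : ℝ) : Prop where
  /-- the time is independent of the line -/
  h1 : Pool.KVA.MI p T sl b ≤ ι * X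
  h1' : (1 - ι) * X * Real.log 2 ≤ CH p (Uni.dg X th) sl
  /-- the position is independent of the velocity and of the own frame -/
  h2 : Pool.KVA.MI p (blk X y z) (fun ω => (vbl X om be ω, G ω)) (fun ω => (b ω, T ω)) ≤ ι * X
  /-- the position is independent of the reference -/
  h3 : Pool.KVA.MI (dbl p sl) (fun x => blk X y z x.1) (fun x => R x.2)
    (fun x => ((vbl X om be x.1, G x.1), (b x.1, T x.1))) ≤ ι * X
  /-- activity of the velocity given the exact point -/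
  h4 : ∀ r X' : ℕ, η * X ≤ X' → r + X' ≤ X → ∀ A : Ω → Prop, ϖ ≤ Pe p A →
    ca * X' * Real.log 2 ≤ CH (Pool.Agent.H49.Ent.cond p A True) (Uni.dg (r + X') om)
      (fun ω => (Uni.dg r om ω, (Y ω, b ω)))
  /-- the context given its visible part -/
  h7 : Pool.KVA.MI p (blk X y z) b (fun ω => (vis ω, T ω)) ≤ ι * X

/-- **(H5)** on large events. -/
def DPH5 {Ω ν Θ : Type} [Fintype Ω] (c : ℕ) (p : Ω → ℝ) (vis : Ω → ν) (T : Ω → Θ) (y : Ω → ℝ)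
    (z : Ω → Fin c → ℝ) (X : ℕ) (ϖ c₀ : ℝ) : Prop :=
  ∀ A : Ω → Prop, ϖ ≤ Pe p A →
    CH (Pool.Agent.H49.Ent.cond p A True) (blk X y z) (fun ω => (vis ω, T ω)) ≤
      (c + 1 - c₀) * X * Real.log 2

/-- **The double plateau**, pure theorem. -/
def DPStmt : Prop :=
  ∀ K c₀ ca p₀ : ℝ, 0 < c₀ → 0 < ca → 0 < p₀ → ∃ (x₀ η ϖ ι ε : ℝ) (X₀ : ℕ), 0 < x₀ ∧ 0 < η ∧
    0 < ϖ ∧ 0 < ι ∧ 0 < ε ∧
    ∀ (Ω β γ ν Λ Θ ρ υ : Type) [Fintype Ω] (p : Ω → ℝ) (b : Ω → β) (vis : Ω → ν) (G : Ω → γ)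
      (sl : Ω → Λ) (T : Ω → Θ) (R : Ω → ρ) (Y : Ω → υ) (y0 om : Ω → ℝ) (z0 be : Ω → Fin 2 → ℝ)
      (th : Ω → ℝ) (S : Ω → Fin 2 → ℝ) (y : Ω → ℝ) (z : Ω → Fin 2 → ℝ) (X : ℕ),
      DPData 2 K p b vis G sl T R Y y0 om z0 be th S y z X → X₀ ≤ X →
      DPHyp 2 p b vis G sl T R Y om be th y z X η ϖ ι ca →
      DPH5 2 p vis T y z X ϖ c₀ →
      Pool.OCV.H6aR p sl S X x₀ p₀ ε →
      Pool.OCV.H6bR p sl (fun ω => ((vis ω, T ω), blk X y z ω)) S X x₀ p₀ ε → False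

/-! ### The pieces -/

/-- **(LAY)** An upper bound on large events is an upper bound for laws of bounded density. -/
def LAYStmt : Prop :=
  ∀ F e : ℝ, 0 < F → 0 < e → ∃ ϖ C : ℝ, 0 < ϖ ∧ 0 ≤ C ∧
    ∀ (Ω S T : Type) [Fintype Ω] (p q : Ω → ℝ) (x : Ω → S) (v : Ω → T) (M h : ℝ), IsLaw p →
      IsLaw q → (∀ ω, q ω ≤ F * p ω) → 0 ≤ M → 0 ≤ h →
      (∀ q' : Ω → ℝ, IsLaw q' → (∀ ω, p ω = 0 → q' ω = 0) → CH q' x v ≤ M) →
      (∀ A : Ω → Prop, ϖ ≤ Pe p A → CH (Pool.Agent.H49.Ent.cond p A True) x v ≤ h) →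
      CH q x v ≤ h + e * M + C

/-- **(LAYL)** The same for lower bounds. -/
def LAYLStmt : Prop :=
  ∀ F e : ℝ, 0 < F → 0 < e → ∃ ϖ : ℝ, 0 < ϖ ∧
    ∀ (Ω S T : Type) [Fintype Ω] (p q : Ω → ℝ) (x : Ω → S) (v : Ω → T) (h : ℝ), IsLaw p →
      IsLaw q → (∀ ω, q ω ≤ F * p ω) → 0 ≤ h →
      (∀ A : Ω → Prop, ϖ ≤ Pe p A → h ≤ CH (Pool.Agent.H49.Ent.cond p A True) x v) →
      (1 - e) * h ≤ CH q x v

/-- **(PLN)** If the triples of references of a typical point are often nearly coplanar, then either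
the slopes of a typical line are nearly constant, or the references of many points and the own
direction are in a plane. -/
def PLNStmt : Prop :=
  ∀ p₀ K : ℝ, 0 < p₀ → ∃ (p₁ ε : ℝ), 0 < p₁ ∧ 0 < ε ∧ ∀ x₁ : ℝ, 0 < x₁ → ∃ (x₀ : ℝ) (X₀ : ℕ),
    0 < x₀ ∧ ∀ (Ω Λ ξ : Type) [Fintype Ω] (p : Ω → ℝ) (sl : Ω → Λ) (pt : Ω → ξ)
      (S : Ω → Fin 2 → ℝ) (X : ℕ), IsLaw p → X₀ ≤ X → (∀ ω, 0 < p ω → ∀ i, |S ω i| ≤ K) →
      (∀ ω ω', 0 < p ω → 0 < p ω' → pt ω = pt ω' → S ω = S ω') →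
      Pool.OCV.H6aR p sl S X x₀ p₀ ε → Pool.OCV.H6bR p sl pt S X x₀ p₀ ε →
      p₁ ≤ ∑ ω, p ω * ∑ w : Fin 3 → Ω × Ω,
        (∏ k, Pool.Agent.H49.Ent.cond p pt (pt ω) (w k).1 *
          Pool.Agent.H49.Ent.cond p sl (sl (w k).1) (w k).2) *
        (if (2 : ℝ) ^ (-(x₁ * X)) ≤
          |(S (w 1).2 0 - S (w 0).2 0) * (S (w 2).2 1 - S (w 0).2 1) -
            (S (w 1).2 1 - S (w 0).2 1) * (S (w 2).2 0 - S (w 0).2 0)| then 1 else 0)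

end Pool.DPL
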