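import Pool.Agent.H8.DPL.Defs

/-!
# Layers: from large events to laws of bounded density
-/

set_option autoImplicit false

namespace Pool.DPL

open Finset Real
open Pool.Agent.H49.Ent Pool.Agent.H32.Dense Pool.STK Pool.KA Pool.K2S

section unnormalized

variable {Ω ι S T U : Type} [Fintype Ω] [Fintype ι]

theorem law_smul (a : ℝ) (p : Ω → ℝ) (X : Ω → S) (s : S) :
    law (fun ω => a * p ω) X s = a * law p X s := by
  classical
  unfold law
  rw [Finset.mul_sum]
  refine Finset.sum_congr rfl fun ω _ => ?_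
  split_ifs <;> simp

theorem H_smul {a : ℝ} (ha : 0 ≤ a) {p : Ω → ℝ} (hp : ∀ ω, 0 ≤ p ω) (X : Ω → S) :
    H (fun ω => a * p ω) X = a * H p X - a * Real.log a * ∑ ω, p ω := by
  rcases ha.eq_or_lt with h | h
  · subst h
    unfold H
    simp
  · unfold H
    rw [mul_neg, Finset.mul_sum, Finset.mul_sum, ← neg_add', neg_inj, ← Finset.sum_add_distrib]
    refine Finset.sum_congr rfl fun ω _ => ?_
    rw [law_smul]
    rcases (hp ω).eq_or_lt with h0 | h0
    · simp [h0.symm]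
    · rw [Real.log_mul h.ne' (law_pos hp X h0).ne']
      ring

theorem CH_smul {a : ℝ} (ha : 0 ≤ a) {p : Ω → ℝ} (hp : ∀ ω, 0 ≤ p ω) (X : Ω → S) (Z : Ω → T) :
    CH (fun ω => a * p ω) X Z = a * CH p X Z := by
  unfold CH
  rw [H_smul ha hp, H_smul ha hp]
  ring

theorem law_slice (Q : Ω × ι → ℝ) (f : Ω → S) (s : S) (i : ι) :
    law Q (fun w => (w.2, f w.1)) (i, s) = law (fun ω => Q (ω, i)) f s := by
  classical
  unfold law
  rw [Fintype.sum_prod_type]
  refine Finset.sum_congr rfl fun ω _ => ?_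
  simp only [Prod.mk.injEq]
  rw [Finset.sum_eq_single i]
  · simp
  · intro j _ hj
    rw [if_neg fun h => hj h.1]
  · intro h
    exact absurd (Finset.mem_univ i) h

theorem law_slice2 (Q : Ω × ι → ℝ) (x : Ω → S) (f : Ω → T) (s : S) (t : T) (i : ι) :
    law Q (fun w => (x w.1, (w.2, f w.1))) (s, (i, t)) =
      law (fun ω => Q (ω, i)) (fun ω => (x ω, f ω)) (s, t) := by
  classical
  unfold law
  rw [Fintype.sum_prod_type]
  refine Finset.sum_congr rfl fun ω _ => ?_
  simp only [Prod.mk.injEq]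
  rw [Finset.sum_eq_single i]
  · simp
  · intro j _ hj
    rw [if_neg fun h => hj h.2.1]
  · intro h
    exact absurd (Finset.mem_univ i) h

/-- Conditional entropy given a label: sum over the label. -/
theorem CH_slice (Q : Ω × ι → ℝ) (X : Ω → S) (Z : Ω → T) :
    CH Q (fun w => X w.1) (fun w => (w.2, Z w.1)) = ∑ i, CH (fun ω => Q (ω, i)) X Z := by
  unfold CH H
  rw [Finset.sum_sub_distrib]
  congr 1
  · rw [Finset.sum_neg_distrib, neg_inj, Fintype.sum_prod_type, Finset.sum_comm]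
    refine Finset.sum_congr rfl fun i _ => Finset.sum_congr rfl fun ω _ => ?_
    rw [law_slice2]
  · rw [Finset.sum_neg_distrib, neg_inj, Fintype.sum_prod_type, Finset.sum_comm]
    refine Finset.sum_congr rfl fun i _ => Finset.sum_congr rfl fun ω _ => ?_
    rw [law_slice]

/-- Marginal. -/
theorem CH_marg (Q : Ω × ι → ℝ) (X : Ω → S) (Z : Ω → T) :
    CH Q (fun w => X w.1) (fun w => Z w.1) = CH (fun ω => ∑ i, Q (ω, i)) X Z := by
  classical
  have h : ∀ ω, (∑ ω' : Ω × ι, if ω'.1 = ω then Q ω' else 0) = ∑ i, Q (ω, i) := by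
    intro ω
    rw [Fintype.sum_prod_type, Finset.sum_eq_single ω]
    · refine Finset.sum_congr rfl fun i _ => ?_
      rw [if_pos rfl]
    · intro ω' _ h'
      refine Finset.sum_eq_zero fun i _ => ?_
      rw [if_neg h']
    · intro h'
      exact absurd (Finset.mem_univ ω) h'
  unfold CH
  have h1 := H_eq_of_marginal (q := Q) (p := fun ω => ∑ i, Q (ω, i)) Prod.fst
    (fun ω => by convert h ω) (fun ω => (X ω, Z ω))
  have h2 := H_eq_of_marginal (q := Q) (p := fun ω => ∑ i, Q (ω, i)) Prod.fst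
    (fun ω => by convert h ω) Z
  rw [h1, h2]

/-- The law restricted to an event. -/
theorem restr_eq {p : Ω → ℝ} (hp : ∀ ω, 0 ≤ p ω) (A : Ω → Prop) [DecidablePred A] (ω : Ω) :
    (if A ω then p ω else 0) = Pe p A * Pool.Agent.H49.Ent.cond p A True ω := by
  classical
  unfold Pool.Agent.H49.Ent.cond
  by_cases h : A ω
  · rw [if_pos h]
    rcases (hp ω).eq_or_lt with h0 | h0
    · simp [h0.symm]
    · have h1 : 0 < law p A True := by
        have := law_pos hp A h0
        rwa [eq_true h] at this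
      rw [if_pos (eq_true h)]
      show p ω = law p A True * (p ω / law p A True)
      field_simp
  · rw [if_neg h, if_neg (fun h' => h (of_eq_true h')), mul_zero]

theorem CH_restr {p : Ω → ℝ} (hp : ∀ ω, 0 ≤ p ω) (A : Ω → Prop) [DecidablePred A] {a : ℝ}
    (ha : 0 ≤ a) (X : Ω → S) (Z : Ω → T) :
    CH (fun ω => a * (if A ω then p ω else 0)) X Z =
      a * Pe p A * CH (Pool.Agent.H49.Ent.cond p A True) X Z := by
  have h1 : (fun ω => a * (if A ω then p ω else 0)) =
      fun ω => (a * Pe p A) * Pool.Agent.H49.Ent.cond p A True ω := by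
    funext ω
    rw [restr_eq hp A ω]
    ring
  rw [h1, CH_smul (mul_nonneg ha (law_nonneg hp A True)) (cond_nonneg hp A True)]

end unnormalized

/-! ### Layers of a number -/

/-- The layers below `q`. -/
theorem lay_le {t q : ℝ} (ht : 0 ≤ t) (hq : 0 ≤ q) (m : ℕ) :
    (∑ i ∈ range m, (if ((i : ℝ) + 1) * t ≤ q then t else 0) ≤ q) ∧
      (∑ i ∈ range m, (if ((i : ℝ) + 1) * t ≤ q then t else 0) ≤ m * t) := by
  induction m with
  | zero => simpa using hq
  | succ m ih =>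
    obtain ⟨h1, h2⟩ := ih
    rw [Finset.sum_range_succ]
    push_cast
    split_ifs with h
    · constructor <;> linarith
    · constructor <;> linarith

theorem lay_ge {t q : ℝ} (ht : 0 ≤ t) (hq : 0 ≤ q) (m : ℕ) :
    (q - ∑ i ∈ range m, (if ((i : ℝ) + 1) * t ≤ q then t else 0) ≤ t) ∨
      (∑ i ∈ range m, (if ((i : ℝ) + 1) * t ≤ q then t else 0) = m * t) := by
  induction m with
  | zero => right; simp
  | succ m ih =>
    rw [Finset.sum_range_succ]
    push_cast
    split_ifs with h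
    · rcases ih with h1 | h1
      · left
        linarith
      · right
        rw [h1]
        ring
    · rcases ih with h1 | h1
      · left
        linarith
      · left
        rw [h1]
        linarith

/-- The rest after `n` layers. -/
theorem lay_rest {t q : ℝ} (ht : 0 ≤ t) (hq : 0 ≤ q) {n : ℕ} (h : q ≤ n * t) :
    q - ∑ i ∈ range n, (if ((i : ℝ) + 1) * t ≤ q then t else 0) ≤ t := by
  rcases lay_ge ht hq n with h1 | h1
  · exact h1
  · rw [h1]
    linarith only [ht, h]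

section lay

variable {Ω S T : Type} [Fintype Ω]

open Classical in
/-- The law with its layers. -/
noncomputable def lay (p q : Ω → ℝ) (n : ℕ) (a : ℝ) (w : Ω × Option (Fin n)) : ℝ :=
  match w.2 with
  | some i => a * (if ((i : ℕ) + 1 : ℝ) * (a * p w.1) ≤ q w.1 then p w.1 else 0)
  | none => q w.1 - ∑ i ∈ range n,
      (if ((i : ℝ) + 1) * (a * p w.1) ≤ q w.1 then a * p w.1 else 0)

theorem lay_sum (p q : Ω → ℝ) (n : ℕ) (a : ℝ) (ω : Ω) :
    ∑ i, lay p q n a (ω, i) = q ω := by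
  classical
  rw [Fintype.sum_option]
  have h : ∀ i : Fin n, lay p q n a (ω, some i) =
      (fun i : ℕ => if ((i : ℝ) + 1) * (a * p ω) ≤ q ω then a * p ω else 0) i := by
    intro i
    show a * (if ((i : ℕ) + 1 : ℝ) * (a * p ω) ≤ q ω then p ω else 0) = _
    rw [mul_ite, mul_zero]
  rw [Finset.sum_congr rfl fun i _ => h i, Fin.sum_univ_eq_sum_range
    (fun i : ℕ => if ((i : ℝ) + 1) * (a * p ω) ≤ q ω then a * p ω else 0) n]
  show q ω - _ + _ = q ω
  ring

theorem lay_nonneg {p q : Ω → ℝ} (hp : ∀ ω, 0 ≤ p ω) (hq : ∀ ω, 0 ≤ q ω) (n : ℕ) {a : ℝ}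
    (ha : 0 ≤ a) (w : Ω × Option (Fin n)) : 0 ≤ lay p q n a w := by
  classical
  obtain ⟨ω, i⟩ := w
  cases i with
  | some i =>
    show 0 ≤ a * (if ((i : ℕ) + 1 : ℝ) * (a * p ω) ≤ q ω then p ω else 0)
    refine mul_nonneg ha ?_
    split_ifs
    · exact hp ω
    · exact le_rfl
  | none =>
    show 0 ≤ q ω - ∑ i ∈ range n, (if ((i : ℝ) + 1) * (a * p ω) ≤ q ω then a * p ω else 0)
    have := (lay_le (mul_nonneg ha (hp ω)) (hq ω) n).1
    linarith

theorem lay_none_le {p q : Ω → ℝ} (hp : ∀ ω, 0 ≤ p ω) (hq : ∀ ω, 0 ≤ q ω) {n : ℕ} {a : ℝ}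
    (ha : 0 ≤ a) (h : ∀ ω, q ω ≤ n * (a * p ω)) (ω : Ω) : lay p q n a (ω, none) ≤ a * p ω :=
  lay_rest (mul_nonneg ha (hp ω)) (hq ω) (h ω)

open Classical in
/-- The event of a layer. -/
def evl (p q : Ω → ℝ) (a : ℝ) (i : ℕ) (ω : Ω) : Prop := ((i : ℝ) + 1) * (a * p ω) ≤ q ω

theorem CH_lay_some {p q : Ω → ℝ} (hp : ∀ ω, 0 ≤ p ω) {n : ℕ} {a : ℝ} (ha : 0 ≤ a)
    (i : Fin n) (X : Ω → S) (Z : Ω → T) :
    CH (fun ω => lay p q n a (ω, some i)) X Z =
      a * Pe p (evl p q a i) * CH (Pool.Agent.H49.Ent.cond p (evl p q a i) True) X Z := by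
  classical
  exact CH_restr hp (evl p q a i) ha X Z

theorem mass_some {p q : Ω → ℝ} (hp : ∀ ω, 0 ≤ p ω) {n : ℕ} {a : ℝ} (i : Fin n) :
    ∑ ω, lay p q n a (ω, some i) = a * Pe p (evl p q a i) := by
  classical
  rw [Pe_eq, Finset.mul_sum]
  rfl

/-- The masses of the layers. -/
theorem mass_lay {p q : Ω → ℝ} (hp : IsLaw p) (hq : IsLaw q) {n : ℕ} {a : ℝ} (ha : 0 ≤ a)
    (h : ∀ ω, q ω ≤ n * (a * p ω)) :
    ∑ i : Fin n, a * Pe p (evl p q a i) = 1 - ∑ ω, lay p q n a (ω, none) ∧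
      ∑ ω, lay p q n a (ω, none) ≤ a ∧ 0 ≤ ∑ ω, lay p q n a (ω, none) := by
  refine ⟨?_, ?_, ?_⟩
  · have h1 : ∑ ω, ∑ i, lay p q n a (ω, i) = 1 := by
      rw [Finset.sum_congr rfl fun ω _ => lay_sum p q n a ω]
      exact hq.sum_one
    rw [Finset.sum_comm, Fintype.sum_option] at h1
    rw [Finset.sum_congr rfl fun (i : Fin n) _ => (mass_some (q := q) hp.nonneg i).symm]
    linarith only [h1]
  · calc ∑ ω, lay p q n a (ω, none) ≤ ∑ ω, a * p ω :=
          Finset.sum_le_sum fun ω _ => lay_none_le hp.nonneg hq.nonneg ha h ω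
      _ = a := by rw [← Finset.mul_sum, hp.sum_one, mul_one]
  · exact Finset.sum_nonneg fun ω _ => lay_nonneg hp.nonneg hq.nonneg n ha (ω, none)

theorem CH_le_of_mass {q : Ω → ℝ} (hq : ∀ ω, 0 ≤ q ω) (X : Ω → S) (Z : Ω → T) {M : ℝ}
    (h : ∀ q' : Ω → ℝ, IsLaw q' → (∀ ω, q ω = 0 → q' ω = 0) → CH q' X Z ≤ M) :
    CH q X Z ≤ (∑ ω, q ω) * M := by
  obtain ⟨m, hm⟩ : ∃ m, m = ∑ ω, q ω := ⟨_, rfl⟩
  have hm0 : 0 ≤ m := hm ▸ Finset.sum_nonneg fun ω _ => hq ω
  rw [← hm]
  rcases hm0.eq_or_lt with h0 | h0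
  · have h1 : ∀ ω, q ω = 0 := by
      intro ω
      have h2 : ∑ ω, q ω = 0 := by rw [← hm, ← h0]
      exact (Finset.sum_eq_zero_iff_of_nonneg fun ω _ => hq ω).1 h2 ω (Finset.mem_univ ω)
    rw [← h0, zero_mul]
    have h3 : q = fun ω => 0 * q ω := by
      funext ω
      rw [h1 ω, mul_zero]
    rw [h3, CH_smul le_rfl hq, zero_mul]
  · have h1 : IsLaw (fun ω => m⁻¹ * q ω) := by
      refine ⟨fun ω => mul_nonneg (inv_nonneg.2 hm0) (hq ω), ?_⟩
      rw [← Finset.mul_sum, ← hm]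
      exact inv_mul_cancel₀ h0.ne'
    have h2 := h _ h1 fun ω hω => by rw [hω, mul_zero]
    have h3 : q = fun ω => m * (m⁻¹ * q ω) := by
      funext ω
      rw [← mul_assoc, mul_inv_cancel₀ h0.ne', one_mul]
    rw [h3, CH_smul hm0 h1.nonneg]
    exact mul_le_mul_of_nonneg_left h2 hm0

theorem cond_law {p : Ω → ℝ} (hp : IsLaw p) {A : Ω → Prop} (h : 0 < Pe p A) :
    IsLaw (Pool.Agent.H49.Ent.cond p A True) :=
  ⟨cond_nonneg hp.nonneg A True, sum_cond p A (ne_of_gt h)⟩

end lay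

/-- **(LAY)** -/
theorem lay_thm : LAYStmt := by
  classical
  intro F e hF he
  obtain ⟨n, hn⟩ := exists_nat_ge (2 * F / e + 1)
  have hn0 : (0 : ℝ) < n := by
    have : 0 ≤ 2 * F / e := by positivity
    linarith only [hn, this]
  obtain ⟨a, ha⟩ : ∃ a, a = F / n := ⟨_, rfl⟩
  have ha0 : 0 ≤ a := ha ▸ by positivity
  have hae : a ≤ e / 2 := by
    rw [ha, div_le_iff₀ hn0]
    have h1 : 2 * F / e ≤ n := by linarith only [hn]
    rw [div_le_iff₀ he] at h1
    linarith only [h1]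
  have hna : (n : ℝ) * a = F := by rw [ha]; field_simp
  refine ⟨e / (2 * F), Real.log (n + 1), by positivity, Real.log_nonneg (by linarith only [hn0]), ?_⟩
  intro Ω S T _ p q x v M h hp hq hqp hM hh hMx hE
  have hqn : ∀ ω, q ω ≤ n * (a * p ω) := by
    intro ω
    rw [← mul_assoc, hna]
    exact hqp ω
  obtain ⟨Q, hQ⟩ : ∃ Q, Q = lay p q n a := ⟨_, rfl⟩
  have hQ0 : ∀ w, 0 ≤ Q w := fun w => hQ ▸ lay_nonneg hp.nonneg hq.nonneg n ha0 w
  have hQ1 : ∑ w, Q w = 1 := by
    rw [Fintype.sum_prod_type, hQ, Finset.sum_congr rfl fun ω _ => lay_sum p q n a ω]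
    exact hq.sum_one
  have e1 : CH q x v = CH Q (fun w => x w.1) (fun w => v w.1) := by
    rw [CH_marg]
    congr 1
    funext ω
    rw [hQ, lay_sum]
  have e2 := CH_le_add hQ0 (fun w => x w.1) (fun w => w.2) (fun w => v w.1)
  have e3 : CH Q (fun w => w.2) (fun w => v w.1) ≤ Real.log (n + 1) := by
    refine (CH_le_card hQ0 hQ1 _ _ (fun _ => Finset.univ) fun w _ => Finset.mem_univ _).trans ?_
    refine le_of_eq ?_
    rw [Ex_const hQ1, Finset.card_univ, Fintype.card_option, Fintype.card_fin]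
    push_cast
    rfl
  have e4 := CH_slice Q x v
  rw [Fintype.sum_option] at e4
  obtain ⟨m1, m2, m3⟩ := mass_lay hp hq ha0 hqn
  have e5 : CH (fun ω => Q (ω, none)) x v ≤ a * M := by
    refine (CH_le_of_mass (fun ω => hQ0 (ω, none)) x v (M := M) ?_).trans ?_
    · intro q' hq' h0
      refine hMx q' hq' fun ω hω => h0 ω ?_
      have h1 := lay_none_le hp.nonneg hq.nonneg ha0 hqn ω
      rw [hω, mul_zero] at h1
      rw [hQ]
      exact le_antisymm h1 (lay_nonneg hp.nonneg hq.nonneg n ha0 (ω, none))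
    · rw [hQ]
      exact mul_le_mul_of_nonneg_right m2 hM
  have e6 : ∀ i : Fin n, CH (fun ω => Q (ω, some i)) x v ≤
      a * Pe p (evl p q a i) * h + a * (e / (2 * F)) * M := by
    intro i
    rw [hQ, CH_lay_some hp.nonneg ha0 i x v]
    have hP0 : 0 ≤ Pe p (evl p q a i) := law_nonneg hp.nonneg _ _
    by_cases h1 : e / (2 * F) ≤ Pe p (evl p q a i)
    · have h2 := hE _ h1
      have h3 := mul_le_mul_of_nonneg_left h2 (mul_nonneg ha0 hP0)
      have h4 : 0 ≤ a * (e / (2 * F)) * M := by positivity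
      linarith only [h3, h4]
    · push Not at h1
      have h4 : 0 ≤ a * Pe p (evl p q a i) * h := mul_nonneg (mul_nonneg ha0 hP0) hh
      rcases hP0.eq_or_lt with h5 | h5
      · rw [← h5]
        simp only [mul_zero, zero_mul, zero_add]
        positivity
      · have h6 := hMx _ (cond_law hp h5) (fun ω hω => by
          unfold Pool.Agent.H49.Ent.cond
          rw [hω, zero_div, ite_self])
        have h7 : a * Pe p (evl p q a i) * CH (Pool.Agent.H49.Ent.cond p (evl p q a i) True) x v ≤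
            a * (e / (2 * F)) * M := by
          refine mul_le_mul (mul_le_mul_of_nonneg_left h1.le ha0) h6
            (CH_nonneg (cond_nonneg hp.nonneg _ _) _ _) (by positivity)
        linarith only [h4, h7]
  have e7 := Finset.sum_le_sum fun (i : Fin n) (_ : i ∈ Finset.univ) => e6 i
  rw [Finset.sum_add_distrib, ← Finset.sum_mul, m1, Finset.sum_const, Finset.card_univ,
    Fintype.card_fin, nsmul_eq_mul] at e7
  have e8 : (n : ℝ) * (a * (e / (2 * F)) * M) = e / 2 * M := by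
    have : (n : ℝ) * (a * (e / (2 * F)) * M) = (n * a) * (e / (2 * F)) * M := by ring
    rw [this, hna]
    field_simp
  rw [e8] at e7
  have e9 : (1 - ∑ ω, lay p q n a (ω, none)) * h ≤ h := by nlinarith only [hh, m3]
  have e10 : a * M ≤ e / 2 * M := mul_le_mul_of_nonneg_right hae hM
  rw [e1]
  linarith only [e2, e3, e4, e5, e7, e9, e10]

/-- **(LAYL)** -/
theorem layl_thm : LAYLStmt := by
  classical
  intro F e hF he
  obtain ⟨n, hn⟩ := exists_nat_ge (2 * F / e + 1)
  have hn0 : (0 : ℝ) < n := by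
    have : 0 ≤ 2 * F / e := by positivity
    linarith only [hn, this]
  obtain ⟨a, ha⟩ : ∃ a, a = F / n := ⟨_, rfl⟩
  have ha0 : 0 ≤ a := ha ▸ by positivity
  have hae : a ≤ e / 2 := by
    rw [ha, div_le_iff₀ hn0]
    have h1 : 2 * F / e ≤ n := by linarith only [hn]
    rw [div_le_iff₀ he] at h1
    linarith only [h1]
  have hna : (n : ℝ) * a = F := by rw [ha]; field_simp
  refine ⟨e / (2 * F), by positivity, ?_⟩
  intro Ω S T _ p q x v h hp hq hqp hh hE
  have hqn : ∀ ω, q ω ≤ n * (a * p ω) := by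
    intro ω
    rw [← mul_assoc, hna]
    exact hqp ω
  obtain ⟨Q, hQ⟩ : ∃ Q, Q = lay p q n a := ⟨_, rfl⟩
  have hQ0 : ∀ w, 0 ≤ Q w := fun w => hQ ▸ lay_nonneg hp.nonneg hq.nonneg n ha0 w
  have e1 : CH q x v = CH Q (fun w => x w.1) (fun w => v w.1) := by
    rw [CH_marg]
    congr 1
    funext ω
    rw [hQ, lay_sum]
  have e2 : CH Q (fun w => x w.1) (fun w => (w.2, v w.1)) ≤
      CH Q (fun w => x w.1) (fun w => v w.1) :=
    CH_mono_cond hQ0 fun w w' _ _ h => (Prod.ext_iff.mp h).2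
  have e4 := CH_slice Q x v
  rw [Fintype.sum_option] at e4
  obtain ⟨m1, m2, m3⟩ := mass_lay hp hq ha0 hqn
  have e5 : 0 ≤ CH (fun ω => Q (ω, none)) x v := CH_nonneg (fun ω => hQ0 (ω, none)) _ _
  have e6 : ∀ i : Fin n, a * Pe p (evl p q a i) * h - a * (e / (2 * F)) * h ≤
      CH (fun ω => Q (ω, some i)) x v := by
    intro i
    rw [hQ, CH_lay_some hp.nonneg ha0 i x v]
    have hP0 : 0 ≤ Pe p (evl p q a i) := law_nonneg hp.nonneg _ _
    by_cases h1 : e / (2 * F) ≤ Pe p (evl p q a i)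
    · have h2 := hE _ h1
      have h3 := mul_le_mul_of_nonneg_left h2 (mul_nonneg ha0 hP0)
      have h4 : 0 ≤ a * (e / (2 * F)) * h := by positivity
      linarith only [h3, h4]
    · push Not at h1
      have h4 : 0 ≤ a * Pe p (evl p q a i) * CH (Pool.Agent.H49.Ent.cond p (evl p q a i) True) x v :=
        mul_nonneg (mul_nonneg ha0 hP0) (CH_nonneg (cond_nonneg hp.nonneg _ _) _ _)
      have h5 : a * Pe p (evl p q a i) * h ≤ a * (e / (2 * F)) * h :=
        mul_le_mul_of_nonneg_right (mul_le_mul_of_nonneg_left h1.le ha0) hh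
      linarith only [h4, h5]
  have e7 := Finset.sum_le_sum fun (i : Fin n) (_ : i ∈ Finset.univ) => e6 i
  rw [Finset.sum_sub_distrib, ← Finset.sum_mul, m1, Finset.sum_const, Finset.card_univ,
    Fintype.card_fin, nsmul_eq_mul] at e7
  have e8 : (n : ℝ) * (a * (e / (2 * F)) * h) = e / 2 * h := by
    have : (n : ℝ) * (a * (e / (2 * F)) * h) = (n * a) * (e / (2 * F)) * h := by ring
    rw [this, hna]
    field_simp
  rw [e8] at e7
  have e9 : (1 - e / 2) * h ≤ (1 - ∑ ω, lay p q n a (ω, none)) * h :=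
    mul_le_mul_of_nonneg_right (by linarith only [hae, m2]) hh
  rw [e1]
  linarith only [e2, e4, e5, e7, e9]

end Pool.DPL
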