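import Pool.Agent.H8.DPL.Stmt
import Pool.Agent.H97.S6.H1R

/-!
# The dictionary of the double plateau

The data of the pure theorem in one window `w` and at one velocity level `q` of a family: `dp_data`.
-/

set_option autoImplicit false

namespace Pool.DPL

open Finset Real
open Pool.Agent.H49.Ent Pool.Agent.H32.Dense Pool.STK Pool.KA Pool.KSAT Pool.K2S

variable {J : ℕ}

theorem cond_true_mem {Ω : Type} [Fintype Ω] {p : Ω → ℝ} {A : Ω → Prop} {ω : Ω}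
    (h : 0 < Pool.Agent.H49.Ent.cond p A True ω) : A ω := by
  unfold Pool.Agent.H49.Ent.cond at h
  by_contra hA
  rw [if_neg (by simpa using hA)] at h
  exact lt_irrefl _ h

/-! ### Rounding -/

theorem rnd_le (n : ℕ) (x : ℝ) : |rnd n x - x| ≤ 1 / 2 ^ n := by
  have hp : (0 : ℝ) < 2 ^ n := by positivity
  have h1 := Int.floor_le ((2 : ℝ) ^ n * x)
  have h2 := (Int.lt_floor_add_one ((2 : ℝ) ^ n * x)).le
  have e : rnd n x - x = -((2 ^ n * x - ⌊(2 : ℝ) ^ n * x⌋) / 2 ^ n) := by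
    unfold rnd
    field_simp
    ring
  rw [e, abs_neg, abs_of_nonneg (div_nonneg (by linarith) hp.le)]
  exact div_le_div_of_nonneg_right (by linarith) hp.le

/-- Coarser digits from finer ones. -/
theorem floor_coarse {n k : ℕ} (h : n ≤ k) {x y : ℝ} (hk : ⌊(2 : ℝ) ^ k * x⌋ = ⌊(2 : ℝ) ^ k * y⌋) :
    ⌊(2 : ℝ) ^ n * x⌋ = ⌊(2 : ℝ) ^ n * y⌋ := by
  rw [← Uni.floor_row h x, ← Uni.floor_row h y, hk]

theorem rnd_coarse {n k : ℕ} (h : n ≤ k) {x y : ℝ} (hk : ⌊(2 : ℝ) ^ k * x⌋ = ⌊(2 : ℝ) ^ k * y⌋) :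
    rnd n x = rnd n y := by
  unfold rnd
  rw [floor_coarse h hk]

section one

variable {F : Fam 3 J} {A : F.Ω → Prop} {σ : Fin 3 → Fin 3} {w q V H X n : ℕ} {a s t : F.Ω → ℝ}
  {al nu kk bb : (Fin 3 → ℤ) × (ℕ × F.ζ) → ℝ} {B : ℝ} {ω ω' : F.Ω}

/-- Components of equal contexts. -/
theorem ctx_ext (hσ : Function.Injective σ)
    (h : ctx F σ w q V H a s t ω = ctx F σ w q V H a s t ω') :
    F.T1 w ω = F.T1 w ω' ∧ (a ω = a ω' ∧ s ω = s ω' ∧ t ω = t ω') ∧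
      F.mps w (fun i => cvl q V H i + w) (frm σ a s t) ω =
        F.mps w (fun i => cvl q V H i + w) (frm σ a s t) ω' ∧
      F.mvl (cvl q V H) (frm σ a s t) ω = F.mvl (cvl q V H) (frm σ a s t) ω' ∧
      F.Z ω = F.Z ω' := by
  obtain ⟨h1, h2, h3, h4, h5⟩ := Box.mlb_ext (F := F) (g := w) (M := frm σ a s t) h
  exact ⟨h1, Box.tfr_eq hσ h2, h3, h4, h5⟩

theorem own_det (hX : X ≤ n) (ha : a ω = a ω') (h : Gn F V H n al kk ω = Gn F V H n al kk ω') :
    own F V H X a al kk ω = own F V H X a al kk ω' := by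
  have h1 : ⌊(2 : ℝ) ^ (V + n) * al (Fam.pt F ω)⌋ = ⌊(2 : ℝ) ^ (V + n) * al (Fam.pt F ω')⌋ :=
    (Prod.ext_iff.mp h).1
  have h2 : ⌊(2 : ℝ) ^ (V + H + n) * kk (Fam.pt F ω)⌋ =
      ⌊(2 : ℝ) ^ (V + H + n) * kk (Fam.pt F ω')⌋ := (Prod.ext_iff.mp h).2
  unfold own
  rw [ha, rnd_coarse (by omega : V + X ≤ V + n) h1,
    rnd_coarse (by omega : V + H + X ≤ V + H + n) h2]

theorem ovl_det (ha : a ω = a ω') (hv : F.mvl (cvl q V H) (frm σ a s t) ω =
    F.mvl (cvl q V H) (frm σ a s t) ω') (h : Gn F V H n al kk ω = Gn F V H n al kk ω') :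
    ovl F σ q V H n a s t al kk ω = ovl F σ q V H n a s t al kk ω' := by
  unfold ovl
  rw [hv, own_det le_rfl ha h]

theorem wt_det (h : F.T ω = F.T ω') : F.wt w ω = F.wt w ω' := by
  unfold Fam.wt
  rw [h]

theorem mkn_det (h : ctx F σ w q V H a s t ω = ctx F σ w q V H a s t ω') (hT : F.T ω = F.T ω') :
    F.mkn w (cvl q V H) (frm σ a s t) ω = F.mkn w (cvl q V H) (frm σ a s t) ω' :=
  Box.mkn_det h hT

theorem own_bd (an1 : |al (Fam.pt F ω) - a ω| ≤ B / 2 ^ V)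
    (an2 : |kk (Fam.pt F ω)| ≤ B / 2 ^ (V + H)) (i : Fin 2) :
    |own F V H X a al kk ω i| ≤ B + 1 := by
  have hV : (0 : ℝ) < 2 ^ V := by positivity
  have hVH : (0 : ℝ) < 2 ^ (V + H) := by positivity
  have key : ∀ (v : ℕ) (x y : ℝ), |x - y| ≤ B / 2 ^ v →
      |2 ^ v * (rnd (v + X) x - y)| ≤ B + 1 := by
    intro v x y h
    have hv : (0 : ℝ) < 2 ^ v := by positivity
    have h1 := rnd_le (v + X) x
    have h2 : (1 : ℝ) / 2 ^ (v + X) ≤ 1 / 2 ^ v := Box.div_pow_mono zero_le_one (by omega)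
    have e : rnd (v + X) x - y = (rnd (v + X) x - x) + (x - y) := by ring
    rw [abs_mul, abs_of_pos hv, e]
    calc (2 : ℝ) ^ v * |rnd (v + X) x - x + (x - y)| ≤ 2 ^ v * (1 / 2 ^ v + B / 2 ^ v) :=
          mul_le_mul_of_nonneg_left ((abs_add_le _ _).trans (add_le_add (h1.trans h2) h)) hv.le
      _ = B + 1 := by
          field_simp
          ring
  fin_cases i
  · exact key V _ _ an1
  · have := key (V + H) (kk (Fam.pt F ω)) 0 (by rwa [sub_zero])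
    rw [sub_zero] at this
    exact this

theorem ypos_mem (i : Fin 3) : 0 ≤ ypos F σ w q V H a s t ω i ∧
    ypos F σ w q V H a s t ω i < 3 := by
  unfold ypos Fam.mx
  obtain ⟨h1, h2⟩ := Box.mu_mem F w (fun i => cvl q V H i + w) (frm σ a s t) ω i
  obtain ⟨h3, h4⟩ := Box.md_mem F (cvl q V H) (frm σ a s t) ω i
  obtain ⟨h5, h6⟩ := Lab.wt_mem F w ω
  have h7 := Int.fract_nonneg (F.mkn w (cvl q V H) (frm σ a s t) ω i)
  have h8 := Int.fract_lt_one (F.mkn w (cvl q V H) (frm σ a s t) ω i)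
  have h9 := mul_nonneg h5 h3
  have h10 : F.wt w ω * F.md (cvl q V H) (frm σ a s t) ω i ≤ 1 * 1 :=
    mul_le_mul h6.le h4.le h3 zero_le_one
  constructor <;> linarith

/-- The position from the exact point. -/
noncomputable def xh (F : Fam 3 J) (ω : F.Ω) (i : Fin 3) : ℝ := (F.X J ω i : ℝ) / 2 ^ J

theorem xh_le (F : Fam 3 J) (ω : F.Ω) (i : Fin 3) : |F.x ω i - xh F ω i| ≤ 1 / 2 ^ J := by
  have h1 := rnd_le J (F.x ω i)
  rw [abs_sub_comm]
  exact h1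

theorem tfr_pos_le (hB : 0 ≤ B) (bd : |a ω| ≤ B ∧ |s ω| ≤ B ∧ |t ω| ≤ B) (i : Fin 3) :
    |mco (frm σ a s t ω) (F.x ω) i - mco (frm σ a s t ω) (xh F ω) i| ≤
      (1 + 2 * B) / 2 ^ J := by
  obtain ⟨b1, b2, b3⟩ := bd
  have kx := xh_le F ω
  have ka : ∀ (x : ℝ) i, |x| ≤ B → |x * (F.x ω i - xh F ω i)| ≤ B / 2 ^ J := by
    intro x i hx
    rw [abs_mul]
    calc |x| * |F.x ω i - xh F ω i| ≤ B * (1 / 2 ^ J) :=
          mul_le_mul hx (kx i) (abs_nonneg _) hB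
      _ = B / 2 ^ J := by ring
  have kB : 0 ≤ B / (2 : ℝ) ^ J := by positivity
  have e0 : (1 + 2 * B) / (2 : ℝ) ^ J = 1 / 2 ^ J + B / 2 ^ J + B / 2 ^ J := by ring
  rw [e0]
  unfold frm
  fin_cases i
  · change |mco (tfr σ (a ω) (s ω) (t ω)) (F.x ω) 0 -
      mco (tfr σ (a ω) (s ω) (t ω)) (xh F ω) 0| ≤ _
    rw [Box.mco_tfr0, Box.mco_tfr0]
    have := kx (σ 0)
    linarith
  · change |mco (tfr σ (a ω) (s ω) (t ω)) (F.x ω) 1 -
      mco (tfr σ (a ω) (s ω) (t ω)) (xh F ω) 1| ≤ _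
    rw [Box.mco_tfr1, Box.mco_tfr1]
    have e : F.x ω (σ 1) - a ω * F.x ω (σ 0) - (xh F ω (σ 1) - a ω * xh F ω (σ 0)) =
      (F.x ω (σ 1) - xh F ω (σ 1)) - a ω * (F.x ω (σ 0) - xh F ω (σ 0)) := by ring
    rw [e]
    refine (abs_sub _ _).trans ?_
    have g1 := kx (σ 1)
    have g2 := ka (a ω) (σ 0) b1
    linarith
  · change |mco (tfr σ (a ω) (s ω) (t ω)) (F.x ω) 2 -
      mco (tfr σ (a ω) (s ω) (t ω)) (xh F ω) 2| ≤ _
    rw [Box.mco_tfr2, Box.mco_tfr2]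
    have e : F.x ω (σ 2) - s ω * F.x ω (σ 1) - t ω * F.x ω (σ 0) -
      (xh F ω (σ 2) - s ω * xh F ω (σ 1) - t ω * xh F ω (σ 0)) =
      (F.x ω (σ 2) - xh F ω (σ 2)) - s ω * (F.x ω (σ 1) - xh F ω (σ 1)) -
      t ω * (F.x ω (σ 0) - xh F ω (σ 0)) := by ring
    rw [e]
    refine (abs_sub _ _).trans ?_
    have g0 := abs_sub (F.x ω (σ 2) - xh F ω (σ 2)) (s ω * (F.x ω (σ 1) - xh F ω (σ 1)))
    have g1 := kx (σ 2)
    have g2 := ka (s ω) (σ 1) b2
    have g3 := ka (t ω) (σ 0) b3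
    linarith

/-- The position at the time from the exact point and the context. -/
noncomputable def upt (F : Fam 3 J) (σ : Fin 3 → Fin 3) (w q V H : ℕ) (a s t : F.Ω → ℝ)
    (ω : F.Ω) (i : Fin 3) : ℝ :=
  2 ^ (cvl q V H i + w) * mco (frm σ a s t ω) (xh F ω) i -
    F.mkn w (cvl q V H) (frm σ a s t) ω i

theorem upt_le (hB : 0 ≤ B) (hw : w ≤ J) (top : w + q + V + H + X ≤ J)
    (bd : |a ω| ≤ B ∧ |s ω| ≤ B ∧ |t ω| ≤ B) (i : Fin 3) :
    |F.mx w (cvl q V H) (frm σ a s t) ω i - upt F σ w q V H a s t ω i| * 2 ^ X ≤ 1 + 2 * B := by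
  have h1 := Box.pos_eq F hw (cvl q V H) (frm σ a s t) ω i
  have h2 := tfr_pos_le (σ := σ) (s := s) (t := t) (a := a) (F := F) hB bd i
  have e : F.mx w (cvl q V H) (frm σ a s t) ω i - upt F σ w q V H a s t ω i =
      2 ^ (cvl q V H i + w) * (mco (frm σ a s t ω) (F.x ω) i -
        mco (frm σ a s t ω) (xh F ω) i) := by
    unfold upt
    rw [mul_sub, h1]
    ring
  rw [e, abs_mul, abs_of_pos (by positivity : (0 : ℝ) < 2 ^ (cvl q V H i + w))]
  have hc : cvl q V H i + w + X ≤ J := by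
    fin_cases i
    · change q + w + X ≤ J
      omega
    · change q + V + w + X ≤ J
      omega
    · change q + V + H + w + X ≤ J
      omega
  calc (2 : ℝ) ^ (cvl q V H i + w) * |mco (frm σ a s t ω) (F.x ω) i -
        mco (frm σ a s t ω) (xh F ω) i| * 2 ^ X
      = 2 ^ (cvl q V H i + w + X) * |mco (frm σ a s t ω) (F.x ω) i -
        mco (frm σ a s t ω) (xh F ω) i| := by
        rw [pow_add _ (cvl q V H i + w) X]
        ring
    _ ≤ 2 ^ J * ((1 + 2 * B) / 2 ^ J) :=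
        mul_le_mul (pow_le_pow_right₀ (by norm_num) hc) h2 (abs_nonneg _) (by positivity)
    _ = 1 + 2 * B := by field_simp

/-- The velocity relation. -/
noncomputable def wpt (F : Fam 3 J) (σ : Fin 3 → Fin 3) (q V H : ℕ) (a s t : F.Ω → ℝ)
    (al nu kk bb : (Fin 3 → ℤ) × (ℕ × F.ζ) → ℝ) (ω : F.Ω) : Fin 2 → ℝ :=
  ![2 ^ (q + V) * nu (Fam.pt F ω) - F.mvl (cvl q V H) (frm σ a s t) ω 1 +
      2 ^ V * (al (Fam.pt F ω) - a ω) * F.mvl (cvl q V H) (frm σ a s t) ω 0,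
    2 ^ (q + V + H) * bb (Fam.pt F ω) - F.mvl (cvl q V H) (frm σ a s t) ω 2 +
      2 ^ (V + H) * kk (Fam.pt F ω) * F.mvl (cvl q V H) (frm σ a s t) ω 0]

theorem wpt_le (on1 : |F.d ω (σ 1) - al (Fam.pt F ω) * F.d ω (σ 0) - nu (Fam.pt F ω)| ≤
      B / 2 ^ (q + V + X))
    (on2 : |F.d ω (σ 2) - s ω * F.d ω (σ 1) - t ω * F.d ω (σ 0) - bb (Fam.pt F ω) -
      kk (Fam.pt F ω) * F.d ω (σ 0)| ≤ B / 2 ^ (q + V + H + X)) (i : Fin 2) :
    |F.md (cvl q V H) (frm σ a s t) ω i.succ - own F V H X a al kk ω i *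
      F.md (cvl q V H) (frm σ a s t) ω 0 - wpt F σ q V H a s t al nu kk bb ω i| * 2 ^ X ≤
      B + 1 := by
  obtain ⟨o1, o2⟩ := Box.md_mem F (cvl q V H) (frm σ a s t) ω 0
  have m0 := Box.mvl_add F (cvl q V H) (frm σ a s t) ω 0
  have m1 := Box.mvl_add F (cvl q V H) (frm σ a s t) ω 1
  have m2 := Box.mvl_add F (cvl q V H) (frm σ a s t) ω 2
  have c0 : mco (frm σ a s t ω) (F.d ω) 0 = F.d ω (σ 0) := Box.mco_tfr0 _ _ _ _ _
  have c1 : mco (frm σ a s t ω) (F.d ω) 1 = F.d ω (σ 1) - a ω * F.d ω (σ 0) :=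
    Box.mco_tfr1 _ _ _ _ _
  have c2 : mco (frm σ a s t ω) (F.d ω) 2 = F.d ω (σ 2) - s ω * F.d ω (σ 1) -
    t ω * F.d ω (σ 0) := Box.mco_tfr2 _ _ _ _ _
  have v0 : cvl q V H 0 = q := rfl
  have v1 : cvl q V H 1 = q + V := rfl
  have v2 : cvl q V H 2 = q + V + H := rfl
  rw [c0, v0] at m0
  rw [c1, v1] at m1
  rw [c2, v2] at m2
  have hX : (0 : ℝ) < 2 ^ X := by positivity
  have key : ∀ (v : ℕ) (x e E : ℝ), |e| ≤ B / 2 ^ (v + q + X) →
      E = 2 ^ (v + q) * e + 2 ^ v * (x - rnd (v + X) x) *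
        F.md (cvl q V H) (frm σ a s t) ω 0 → |E| * 2 ^ X ≤ B + 1 := by
    intro v x e E he hE
    have h1 := rnd_le (v + X) x
    have h2 : |2 ^ (v + q) * e| ≤ B / 2 ^ X := by
      rw [abs_mul, abs_of_pos (by positivity : (0 : ℝ) < 2 ^ (v + q))]
      calc (2 : ℝ) ^ (v + q) * |e| ≤ 2 ^ (v + q) * (B / 2 ^ (v + q + X)) :=
            mul_le_mul_of_nonneg_left he (by positivity)
        _ = B / 2 ^ X := by
            rw [pow_add _ (v + q) X]
            field_simp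
    have h3 : |2 ^ v * (x - rnd (v + X) x) * F.md (cvl q V H) (frm σ a s t) ω 0| ≤
        1 / 2 ^ X := by
      rw [abs_mul, abs_mul, abs_of_pos (by positivity : (0 : ℝ) < 2 ^ v), abs_sub_comm,
        abs_of_nonneg o1]
      calc (2 : ℝ) ^ v * |rnd (v + X) x - x| * F.md (cvl q V H) (frm σ a s t) ω 0 ≤
            2 ^ v * (1 / 2 ^ (v + X)) * 1 :=
            mul_le_mul (mul_le_mul_of_nonneg_left h1 (by positivity)) o2.le o1 (by positivity)
        _ = 1 / 2 ^ X := by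
            rw [pow_add]
            field_simp
    rw [hE]
    calc |2 ^ (v + q) * e + 2 ^ v * (x - rnd (v + X) x) *
          F.md (cvl q V H) (frm σ a s t) ω 0| * 2 ^ X ≤ (B / 2 ^ X + 1 / 2 ^ X) * 2 ^ X :=
          mul_le_mul_of_nonneg_right ((abs_add_le _ _).trans (add_le_add h2 h3)) hX.le
      _ = B + 1 := by field_simp
  fin_cases i
  · refine key V (al (Fam.pt F ω)) _ _ (by rw [Nat.add_comm V q]; exact on1) ?_
    change F.md (cvl q V H) (frm σ a s t) ω 1 -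
      2 ^ V * (rnd (V + X) (al (Fam.pt F ω)) - a ω) * F.md (cvl q V H) (frm σ a s t) ω 0 -
      (2 ^ (q + V) * nu (Fam.pt F ω) - F.mvl (cvl q V H) (frm σ a s t) ω 1 +
      2 ^ V * (al (Fam.pt F ω) - a ω) * F.mvl (cvl q V H) (frm σ a s t) ω 0) = _
    have e1 : F.md (cvl q V H) (frm σ a s t) ω 1 = 2 ^ (q + V) * (F.d ω (σ 1) -
      a ω * F.d ω (σ 0)) - F.mvl (cvl q V H) (frm σ a s t) ω 1 := by linarith
    have e0 : (F.mvl (cvl q V H) (frm σ a s t) ω 0 : ℝ) = 2 ^ q * F.d ω (σ 0) -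
      F.md (cvl q V H) (frm σ a s t) ω 0 := by linarith
    rw [e1, e0, Nat.add_comm V q, pow_add]
    ring
  · refine key (V + H) (kk (Fam.pt F ω)) _ _
      (by rw [show V + H + q + X = q + V + H + X by omega]; exact on2) ?_
    change F.md (cvl q V H) (frm σ a s t) ω 2 -
      2 ^ (V + H) * rnd (V + H + X) (kk (Fam.pt F ω)) * F.md (cvl q V H) (frm σ a s t) ω 0 -
      (2 ^ (q + V + H) * bb (Fam.pt F ω) - F.mvl (cvl q V H) (frm σ a s t) ω 2 +
      2 ^ (V + H) * kk (Fam.pt F ω) * F.mvl (cvl q V H) (frm σ a s t) ω 0) = _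
    have e2 : F.md (cvl q V H) (frm σ a s t) ω 2 = 2 ^ (q + V + H) * (F.d ω (σ 2) -
      s ω * F.d ω (σ 1) - t ω * F.d ω (σ 0)) - F.mvl (cvl q V H) (frm σ a s t) ω 2 := by
      linarith
    have e0 : (F.mvl (cvl q V H) (frm σ a s t) ω 0 : ℝ) = 2 ^ q * F.d ω (σ 0) -
      F.md (cvl q V H) (frm σ a s t) ω 0 := by linarith
    rw [e2, e0, show V + H + q = q + (V + H) by omega, show q + V + H = q + (V + H) by omega,
      pow_add]
    ring

/-- **The dictionary.** -/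
theorem dp_data (hσ : Function.Injective σ)
    (law : IsLaw (Pool.Agent.H49.Ent.cond F.p A True)) (hB : 1 ≤ B) (hX : X ≤ n)
    (top : w + q + V + H + X ≤ J)
    (det : Det (Pool.Agent.H49.Ent.cond F.p A True) (slam F w) (fun ω => (a ω, s ω, t ω)))
    (bd : ∀ ω, A ω → |a ω| ≤ B ∧ |s ω| ≤ B ∧ |t ω| ≤ B)
    (on1 : ∀ ω, A ω → |F.d ω (σ 1) - al (Fam.pt F ω) * F.d ω (σ 0) - nu (Fam.pt F ω)| ≤
      B / 2 ^ (q + V + X))
    (on2 : ∀ ω, A ω → |F.d ω (σ 2) - s ω * F.d ω (σ 1) - t ω * F.d ω (σ 0) -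
      bb (Fam.pt F ω) - kk (Fam.pt F ω) * F.d ω (σ 0)| ≤ B / 2 ^ (q + V + H + X))
    (an1 : ∀ ω, A ω → |al (Fam.pt F ω) - a ω| ≤ B / 2 ^ V)
    (an2 : ∀ ω, A ω → |kk (Fam.pt F ω)| ≤ B / 2 ^ (V + H)) :
    DPData 2 (2 * B + 3) (Pool.Agent.H49.Ent.cond F.p A True) (ctx F σ w q V H a s t)
      (visc F σ w q V H n a s t al kk) (Gn F V H n al kk) (slam F w) F.T
      (fun ω => (F.T ω, Gn F V H X al kk ω)) (Fam.pt F)
      (fun ω => F.mu w (fun i => cvl q V H i + w) (frm σ a s t) ω 0)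
      (fun ω => F.md (cvl q V H) (frm σ a s t) ω 0)
      (fun ω i => F.mu w (fun i => cvl q V H i + w) (frm σ a s t) ω i.succ)
      (fun ω i => F.md (cvl q V H) (frm σ a s t) ω i.succ) (F.wt w)
      (own F V H X a al kk) (fun ω => ypos F σ w q V H a s t ω 0)
      (fun ω i => ypos F σ w q V H a s t ω i.succ) X := by
  have hB0 : 0 ≤ B := by linarith
  have hw : w ≤ J := by omega
  have hA : ∀ ω, 0 < Pool.Agent.H49.Ent.cond F.p A True ω → A ω := fun ω h =>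
    cond_true_mem h
  have fr : ∀ ω ω', 0 < Pool.Agent.H49.Ent.cond F.p A True ω →
      0 < Pool.Agent.H49.Ent.cond F.p A True ω' → slam F w ω = slam F w ω' →
      F.mlb w (fun i => cvl q V H i + w) (cvl q V H) (frm σ a s t) ω =
        F.mlb w (fun i => cvl q V H i + w) (cvl q V H) (frm σ a s t) ω' ∧
      F.mu w (fun i => cvl q V H i + w) (frm σ a s t) ω =
        F.mu w (fun i => cvl q V H i + w) (frm σ a s t) ω' ∧
      F.md (cvl q V H) (frm σ a s t) ω = F.md (cvl q V H) (frm σ a s t) ω' := by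
    intro ω ω' h1 h2 h
    have d1 := Prod.ext_iff.mp (det ω ω' h1 h2 h)
    have d2 := Prod.ext_iff.mp d1.2
    have e1 : F.l ω = F.l ω' := (Prod.ext_iff.mp h).1
    have e2 := Prod.ext_iff.mp (Prod.ext_iff.mp h).2
    refine Box.label_det F e1 e2.2 ?_ e2.1
    change tfr σ (a ω) (s ω) (t ω) = tfr σ (a ω') (s ω') (t ω')
    have g1 : a ω = a ω' := d1.1
    have g2 : s ω = s ω' := d2.1
    have g3 : t ω = t ω' := d2.2
    rw [g1, g2, g3]
  refine
    { law := law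
      db := fun ω ω' h1 h2 h => (fr ω ω' h1 h2 h).1
      dy0 := fun ω ω' h1 h2 h => congrFun (fr ω ω' h1 h2 h).2.1 0
      dom := fun ω ω' h1 h2 h => congrFun (fr ω ω' h1 h2 h).2.2 0
      dz0 := fun ω ω' h1 h2 h => funext fun i => congrFun (fr ω ω' h1 h2 h).2.1 i.succ
      dbe := fun ω ω' h1 h2 h => funext fun i => congrFun (fr ω ω' h1 h2 h).2.2 i.succ
      dth := fun ω ω' _ _ h => wt_det (Prod.ext_iff.mp h).2
      dth' := fun ω ω' _ _ h => wt_det (Prod.ext_iff.mp (Prod.ext_iff.mp h).2).1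
      dS := ?_
      dRY := ?_
      dvis := ?_
      dSv := ?_
      hom := fun ω _ => Box.md_mem F _ _ ω 0
      hth := fun ω _ => Lab.wt_mem F w ω
      hS := fun ω hω i => (own_bd (an1 ω (hA ω hω)) (an2 ω (hA ω hω)) i).trans (by linarith)
      hyb := ?_
      hzb := ?_
      hy := ?_
      hz := ?_
      hY := ?_ }
  · intro ω ω' _ _ h
    have h1 := Prod.ext_iff.mp h
    have h2 := ctx_ext hσ h1.1
    exact own_det le_rfl h2.2.1.1 (Prod.ext_iff.mp h1.2).2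
  · intro ω ω' _ _ h
    have h1 : Fam.pt F ω = Fam.pt F ω' := (Prod.ext_iff.mp h).2
    have h2 : F.T ω = F.T ω' := (Prod.ext_iff.mp (Prod.ext_iff.mp h1).2).1
    show (F.T ω, Gn F V H X al kk ω) = (F.T ω', Gn F V H X al kk ω')
    unfold Gn
    rw [h1, h2]
  · intro ω ω' _ _ h
    have h1 := Prod.ext_iff.mp h
    obtain ⟨e1, ⟨e2, e3, e4⟩, e5, e6, e7⟩ := ctx_ext hσ h1.1
    have h2 : F.T ω = F.T ω' := (Prod.ext_iff.mp h1.2).1
    have h3 : Gn F V H n al kk ω = Gn F V H n al kk ω' := (Prod.ext_iff.mp h1.2).2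
    have h4 : vcl F σ w q V H a s t ω = vcl F σ w q V H a s t ω' := by
      funext i
      unfold vcl
      rw [mkn_det h1.1 h2]
    unfold visc
    rw [e1, e2, e3, e4, e7, h3, h4, ovl_det e2 e6 h3]
  · intro ω ω' _ _ h
    have h1 := Prod.ext_iff.mp h
    have h2 := Prod.ext_iff.mp h1.1
    have h3 := Prod.ext_iff.mp h2.2
    have h4 := Prod.ext_iff.mp h2.1
    have h5 : a ω = a ω' := (Prod.ext_iff.mp h4.2).1
    exact own_det hX h5 h3.2
  · intro ω _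
    obtain ⟨h1, h2⟩ := ypos_mem (F := F) (σ := σ) (w := w) (q := q) (V := V) (H := H) (a := a)
      (s := s) (t := t) (ω := ω) 0
    rw [abs_of_nonneg h1]
    linarith
  · intro ω _ i
    obtain ⟨h1, h2⟩ := ypos_mem (F := F) (σ := σ) (w := w) (q := q) (V := V) (H := H) (a := a)
      (s := s) (t := t) (ω := ω) i.succ
    rw [abs_of_nonneg h1]
    linarith
  · refine ⟨fun ω => Int.fract (F.mkn w (cvl q V H) (frm σ a s t) ω 0), ?_, fun ω _ => rfl⟩
    intro ω ω' _ _ h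
    have h1 := Prod.ext_iff.mp h
    simp only [mkn_det h1.1 h1.2]
  · refine ⟨fun ω i => Int.fract (F.mkn w (cvl q V H) (frm σ a s t) ω i.succ), ?_,
      fun ω _ i => rfl⟩
    intro ω ω' _ _ h
    have h1 := Prod.ext_iff.mp h
    simp only [mkn_det h1.1 h1.2]
  · refine ⟨fun ω => upt F σ w q V H a s t ω 0, fun ω i => upt F σ w q V H a s t ω i.succ,
      wpt F σ q V H a s t al nu kk bb, ?_, ?_⟩
    · intro ω ω' _ _ h
      have h1 := Prod.ext_iff.mp h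
      have h2 : Fam.pt F ω = Fam.pt F ω' := h1.1
      have h3 : F.T ω = F.T ω' := (Prod.ext_iff.mp (Prod.ext_iff.mp h2).2).1
      have h4 : F.X J ω = F.X J ω' := (Prod.ext_iff.mp h2).1
      obtain ⟨e1, ⟨e2, e3, e4⟩, e5, e6, e7⟩ := ctx_ext hσ h1.2
      have h5 : upt F σ w q V H a s t ω = upt F σ w q V H a s t ω' := by
        funext i
        unfold upt xh frm
        have := mkn_det h1.2 h3
        unfold frm at this
        rw [this, h4, e2, e3, e4]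
      have h6 : wpt F σ q V H a s t al nu kk bb ω = wpt F σ q V H a s t al nu kk bb ω' := by
        unfold wpt
        rw [h2, e6, e2]
      simp only [h5, h6]
    · intro ω hω
      have hAω := hA ω hω
      refine ⟨?_, ?_, ?_⟩
      · exact (upt_le (σ := σ) hB0 hw top (bd ω hAω) 0).trans (by linarith)
      · intro i
        exact (upt_le (σ := σ) hB0 hw top (bd ω hAω) i.succ).trans (by linarith)
      · intro i
        exact (wpt_le (on1 ω hAω) (on2 ω hAω) i).trans (by linarith)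

end one

end Pool.DPL
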